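import Mathlib

open Equiv

namespace Pool.Agent.Results.MP_f6f917_al.Counter

variable {Ω : Type}

/-- all elements move only finitely many points -/
def Finitary (G : Subgroup (Perm Ω)) : Prop := ∀ g ∈ G, {x | g x ≠ x}.Finite

/-- a single orbit -/
def Transitive (G : Subgroup (Perm Ω)) : Prop := ∀ x y : Ω, ∃ g ∈ G, g x = y

/-- maximal `p`-subgroup of `G` -/
def IsSylowIn (p : ℕ) (S G : Subgroup (Perm Ω)) : Prop :=
  S ≤ G ∧ IsPGroup p S ∧ ∀ P : Subgroup (Perm Ω), S ≤ P → P ≤ G → IsPGroup p P → P = S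

/-- a block for `H` -/
def IsBlockFor (H : Subgroup (Perm Ω)) (B : Set Ω) : Prop :=
  B.Nonempty ∧ ∀ h ∈ H, h '' B = B ∨ Disjoint (h '' B) B

/-- every cycle support of every element of `H` is a block for `H` -/
def CyclesAreBlocks (H : Subgroup (Perm Ω)) : Prop :=
  ∀ h ∈ H, ∀ x : Ω, IsBlockFor H {y | h.SameCycle x y}

/-- base-8 codes of the 32 elements of a transitive group of degree 8 -/
def Lc : List ℕ := [16434824, 14571144, 14599368, 16405704, 14599809, 16406145, 16434369, 14570689, 11788826, 9925146, 9953370, 11759706, 9953811, 11760147, 11788371, 9924691, 5017516, 6823852, 6852076, 4988396, 6852517, 4988837, 5017061, 6823397, 371518, 2177854, 2206078, 342398, 2206519, 342839, 371063, 2177399]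

def ap (c : ℕ) (i : Fin 8) : Fin 8 := ⟨c / 8 ^ (i : ℕ) % 8, Nat.mod_lt _ (by decide)⟩

def L : Set (Fin 8 → Fin 8) := {a | ∃ c ∈ Lc, a = ap c}

def F : List (Fin 8) := [0, 1, 2, 3, 4, 5, 6, 7]

lemma mem_F (i : Fin 8) : i ∈ F := by revert i; decide

lemma L_one : (fun i => i) ∈ L := by
  refine ⟨16434824, by decide, funext fun i => ?_⟩
  revert i; decide

lemma c_mul : (Lc.all fun a => Lc.all fun b => Lc.any fun c =>
    F.all fun i => ap a (ap b i) == ap c i) = true := by decide +kernel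

lemma L_mul : ∀ a ∈ L, ∀ b ∈ L, (fun i => a (b i)) ∈ L := by
  rintro _ ⟨a, ha, rfl⟩ _ ⟨b, hb, rfl⟩
  have := c_mul
  simp only [List.all_eq_true, List.any_eq_true, beq_iff_eq] at this
  obtain ⟨c, hc, h⟩ := this a ha b hb
  exact ⟨c, hc, funext fun i => h i (mem_F i)⟩

lemma c_inv : (Lc.all fun a => Lc.any fun b =>
    F.all fun i => ap b (ap a i) == i && ap a (ap b i) == i) = true := by decide +kernel

lemma L_inv : ∀ a ∈ L, ∃ b ∈ L, ∀ i, b (a i) = i ∧ a (b i) = i := by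
  rintro _ ⟨a, ha, rfl⟩
  have := c_inv
  simp only [List.all_eq_true, List.any_eq_true, Bool.and_eq_true, beq_iff_eq] at this
  obtain ⟨b, hb, h⟩ := this a ha
  exact ⟨_, ⟨b, hb, rfl⟩, fun i => h i (mem_F i)⟩

lemma c_exp : (Lc.all fun a => F.all fun i => ap a (ap a (ap a (ap a i))) == i) = true := by
  decide +kernel

lemma L_exp : ∀ a ∈ L, ∀ i, a (a (a (a i))) = i := by
  rintro _ ⟨a, ha, rfl⟩ i
  have := c_exp
  simp only [List.all_eq_true, beq_iff_eq] at this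
  exact this a ha i (mem_F i)

lemma c_trans : (F.all fun i => F.all fun j => Lc.any fun a => ap a i == j) = true := by
  decide +kernel

lemma L_trans : ∀ i j : Fin 8, ∃ a ∈ L, a i = j := by
  intro i j
  have := c_trans
  simp only [List.all_eq_true, List.any_eq_true, beq_iff_eq] at this
  obtain ⟨a, ha, h⟩ := this i (mem_F i) j (mem_F j)
  exact ⟨_, ⟨a, ha, rfl⟩, h⟩

lemma c_bad : (Lc.all fun a => Lc.all fun b => ap a 0 != 2 || ap b 0 != 4 ||
    F.any fun x => F.any fun u => F.any fun v =>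
    ap a (ap b (ap a (ap b x))) == x && (u == x || u == ap a (ap b x)) &&
    (v == x || v == ap a (ap b x)) &&
    (ap b (ap a u) == x || ap b (ap a u) == ap a (ap b x)) && ap b (ap a v) != x &&
    ap b (ap a v) != ap a (ap b x)) = true := by decide +kernel

lemma L_bad : ∀ a ∈ L, ∀ b ∈ L, a 0 = 2 → b 0 = 4 → ∃ x u v : Fin 8,
    a (b (a (b x))) = x ∧ (u = x ∨ u = a (b x)) ∧ (v = x ∨ v = a (b x)) ∧
    (b (a u) = x ∨ b (a u) = a (b x)) ∧ b (a v) ≠ x ∧ b (a v) ≠ a (b x) := by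
  rintro _ ⟨a, ha, rfl⟩ _ ⟨b, hb, rfl⟩ h1 h2
  have := c_bad
  simp only [List.all_eq_true, List.any_eq_true, Bool.and_eq_true, Bool.or_eq_true, beq_iff_eq,
    bne_iff_ne] at this
  rcases this a ha b hb with (h | h) | ⟨x, -, u, -, v, -, h⟩
  · exact absurd h1 h
  · exact absurd h2 h
  · exact ⟨x, u, v, by tauto⟩

abbrev W : Type := Fin 8 × ℕ

def G : Subgroup (Perm W) where
  carrier := {g | (∃ k, ∀ x : W, 2 ^ k ≤ x.2 → g x = x) ∧
    (∀ k, ∀ x y : W, (g x).2 / 2 ^ k = (g y).2 / 2 ^ k ↔ x.2 / 2 ^ k = y.2 / 2 ^ k) ∧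
    ∀ n, ∃ a ∈ L, ∀ i, (g (i, n)).1 = a i}
  one_mem' := ⟨⟨0, fun _ _ => rfl⟩, fun _ _ _ => Iff.rfl, fun _ => ⟨_, L_one, fun _ => rfl⟩⟩
  mul_mem' := by
    rintro g h ⟨⟨k, hk⟩, g2, g3⟩ ⟨⟨l, hl⟩, h2, h3⟩
    refine ⟨⟨max k l, fun x hx => ?_⟩, fun k x y => (g2 k _ _).trans (h2 k x y), fun n => ?_⟩
    · rw [Perm.mul_apply, hl x ((Nat.pow_le_pow_right two_pos (le_max_right k l)).trans hx),
        hk x ((Nat.pow_le_pow_right two_pos (le_max_left k l)).trans hx)]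
    · obtain ⟨b, hb, hb'⟩ := h3 n
      obtain ⟨a, ha, ha'⟩ := g3 (h (0, n)).2
      refine ⟨_, L_mul a ha b hb, fun i => ?_⟩
      have h4 : (h (i, n)).2 = (h (0, n)).2 := by simpa using (h2 0 (i, n) (0, n)).2 rfl
      have h5 : h (i, n) = (b i, (h (0, n)).2) := Prod.ext (hb' i) h4
      rw [Perm.mul_apply, h5, ha']
  inv_mem' := by
    rintro g ⟨⟨k, hk⟩, g2, g3⟩
    refine ⟨⟨k, fun x hx => ?_⟩, fun k x y => ?_, fun n => ?_⟩
    · rw [Perm.inv_eq_iff_eq, hk x hx]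
    · have := g2 k (g⁻¹ x) (g⁻¹ y)
      simpa using this.symm
    · obtain ⟨a, ha, ha'⟩ := g3 (g⁻¹ (0, n)).2
      obtain ⟨b, hb, hb'⟩ := L_inv a ha
      refine ⟨b, hb, fun i => ?_⟩
      have h4 : (g⁻¹ (i, n)).2 = (g⁻¹ (0, n)).2 := by
        have := (g2 0 (g⁻¹ (i, n)) (g⁻¹ (0, n))).1 (by simp)
        simpa using this
      have h5 := ha' (g⁻¹ (i, n)).1
      rw [← h4] at h5
      simp only [Prod.mk.eta, Perm.coe_inv, apply_symm_apply] at h5
      rw [← (hb' (g⁻¹ (i, n)).1).1]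
      exact congrArg b h5.symm

lemma pow_fix (k : ℕ) : ∀ g ∈ G, ∀ c, (∀ x : W, x.2 / 2 ^ k = c → (g x).2 / 2 ^ k = c) →
    ∀ x : W, x.2 / 2 ^ k = c → (g ^ (2 ^ (k + 2))) x = x := by
  induction k with
  | zero =>
    intro g hg c h x hx
    simp only [pow_zero, Nat.div_one] at h hx
    obtain ⟨a, ha, ha'⟩ := hg.2.2 c
    have h1 : ∀ i, g (i, c) = (a i, c) := fun i => Prod.ext (ha' i) (h _ rfl)
    obtain ⟨i, n⟩ := x
    simp only at hx
    subst hx
    have : g ^ 2 ^ (0 + 2) = g * (g * (g * g)) := by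
      rw [show 2 ^ (0 + 2) = 4 from rfl, pow_succ', pow_succ', pow_two]
    rw [this]
    simp only [Perm.mul_apply, h1, L_exp a ha]
  | succ k ih =>
    intro g hg c h x hx
    have hd : ∀ n : ℕ, n / 2 ^ (k + 1) = n / 2 ^ k / 2 := fun n => by
      rw [Nat.div_div_eq_div_mul, pow_succ]
    have key : ∀ y : W, y.2 / 2 ^ k = x.2 / 2 ^ k → ((g ^ 2) y).2 / 2 ^ k = x.2 / 2 ^ k := by
      intro y hy
      have a0 : y.2 / 2 ^ (k + 1) = c := by rw [hd, hy, ← hd, hx]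
      have a1 := h y a0
      have a2 := h _ a1
      have a3 := hg.2.1 k (g y) y
      rw [hd] at a0 a1 a2
      rw [pow_two, Perm.mul_apply]
      omega
    have := ih (g ^ 2) (G.pow_mem hg 2) _ key x rfl
    rwa [← pow_mul, ← pow_succ'] at this

lemma G_pgroup : IsPGroup 2 G := by
  rintro ⟨g, hg⟩
  obtain ⟨k, hk⟩ := hg.1
  refine ⟨k + 2, Subtype.ext ?_⟩
  simp only [SubgroupClass.coe_pow, OneMemClass.coe_one]
  ext1 x
  by_cases hx : 2 ^ k ≤ x.2
  · exact Perm.pow_apply_eq_self_of_apply_eq_self (hk x hx) _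
  · refine pow_fix k g hg 0 (fun y hy => ?_) x (Nat.div_eq_of_lt (not_le.1 hx))
    apply Nat.div_eq_of_lt
    by_contra hn
    have h1 := hk _ (not_lt.1 hn)
    have h2 := g.injective h1
    rw [h2] at hn
    have := (Nat.div_eq_zero_iff_lt (by positivity)).1 hy
    exact hn this

lemma G_fin : Finitary G := by
  rintro g ⟨⟨k, hk⟩, -⟩
  refine ((Set.finite_univ (α := Fin 8)).prod (Set.finite_lt_nat (2 ^ k))).subset ?_
  intro x hx
  refine ⟨trivial, ?_⟩
  by_contra hn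
  exact hx (hk x (not_lt.1 hn))

lemma xor_div (n m j : ℕ) : (n ^^^ m) / 2 ^ j = (n / 2 ^ j) ^^^ (m / 2 ^ j) := by
  simp only [← Nat.shiftRight_eq_div_pow, Nat.shiftRight_xor_distrib]

lemma G_trans : Transitive G := by
  rintro ⟨i, n⟩ ⟨j, n'⟩
  obtain ⟨a, ha, haij⟩ := L_trans i j
  obtain ⟨b, -, hb⟩ := L_inv a ha
  obtain ⟨k, hk⟩ : ∃ k, n < 2 ^ k ∧ n' < 2 ^ k :=
    ⟨n + n', lt_of_le_of_lt (by omega) Nat.lt_two_pow_self,
      lt_of_le_of_lt (by omega) Nat.lt_two_pow_self⟩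
  have hm : n ^^^ n' < 2 ^ k := Nat.xor_lt_two_pow hk.1 hk.2
  set m := n ^^^ n' with hmdef
  let f : ℕ → ℕ := fun t => if t < 2 ^ k then t ^^^ m else t
  have ff : ∀ t, f (f t) = t := by
    intro t
    by_cases ht : t < 2 ^ k
    · simp [f, ht, Nat.xor_lt_two_pow ht hm]
    · simp [f, ht]
  have fd : ∀ l s t, s / 2 ^ l = t / 2 ^ l → f s / 2 ^ l = f t / 2 ^ l := by
    intro l s t hst
    by_cases hl : k ≤ l
    · have : ∀ t, f t / 2 ^ l = t / 2 ^ l := by
        intro t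
        by_cases ht : t < 2 ^ k
        · have h1 := Nat.pow_le_pow_right two_pos hl
          simp only [f, if_pos ht]
          rw [Nat.div_eq_of_lt (lt_of_lt_of_le (Nat.xor_lt_two_pow ht hm) h1),
            Nat.div_eq_of_lt (lt_of_lt_of_le ht h1)]
        · simp [f, ht]
      rw [this, this, hst]
    · obtain ⟨d, rfl⟩ : ∃ d, k = l + d := ⟨k - l, by omega⟩
      have h1 : ∀ t, t < 2 ^ (l + d) ↔ t / 2 ^ l < 2 ^ d := by
        intro t
        rw [Nat.div_lt_iff_lt_mul (by positivity), pow_add, mul_comm]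
      by_cases hs : s < 2 ^ (l + d)
      · have ht : t < 2 ^ (l + d) := by rw [h1, ← hst, ← h1]; exact hs
        simp only [f, if_pos hs, if_pos ht, xor_div, hst]
      · have ht : ¬ t < 2 ^ (l + d) := by rw [h1, ← hst, ← h1]; exact hs
        simp only [f, if_neg hs, if_neg ht, hst]
  have flt : ∀ t, f t < 2 ^ k ↔ t < 2 ^ k := by
    intro t
    by_cases ht : t < 2 ^ k
    · simp [f, ht, Nat.xor_lt_two_pow ht hm]
    · simp [f, ht]
  let g : Perm W :=
    { toFun := fun x => (if x.2 < 2 ^ k then a x.1 else x.1, f x.2)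
      invFun := fun x => (if x.2 < 2 ^ k then b x.1 else x.1, f x.2)
      left_inv := by
        rintro ⟨i, t⟩
        by_cases ht : t < 2 ^ k
        · simp [flt, ht, ff, (hb i).1]
        · simp [flt, ht, ff]
      right_inv := by
        rintro ⟨i, t⟩
        by_cases ht : t < 2 ^ k
        · simp [flt, ht, ff, (hb i).2]
        · simp [flt, ht, ff] }
  have hg : ∀ x : W, g x = (if x.2 < 2 ^ k then a x.1 else x.1, f x.2) := fun x => rfl
  refine ⟨g, ⟨⟨k, fun x hx => ?_⟩, fun l x y => ?_, fun t => ?_⟩, ?_⟩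
  · rw [hg]
    simp [f, not_lt.2 hx]
  · rw [hg, hg]
    refine ⟨fun h => ?_, fd l _ _⟩
    have := fd l _ _ h
    rwa [ff, ff] at this
  · by_cases ht : t < 2 ^ k
    · exact ⟨a, ha, fun i => by rw [hg]; simp [ht]⟩
    · exact ⟨_, L_one, fun i => by rw [hg]; simp [ht]⟩
  · rw [hg]
    simp [f, hk.1, haij, hmdef]

lemma two_cycle {h : Perm W} {x : W} (hx : h (h x) = x) {y : W} (hy : h.SameCycle x y) :
    y = x ∨ y = h x := by
  obtain ⟨i, rfl⟩ := hy
  induction i using Int.induction_on with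
  | zero => left; rfl
  | succ i ih =>
    rw [add_comm, zpow_add, zpow_one, Perm.mul_apply]
    rcases ih with h1 | h1 <;> rw [h1]
    · right; rfl
    · left; exact hx
  | pred i ih =>
    rw [sub_eq_add_neg, add_comm, zpow_add, zpow_neg_one, Perm.mul_apply]
    rcases ih with h1 | h1 <;> rw [h1]
    · right; rw [Perm.inv_eq_iff_eq, hx]
    · left; simp

lemma not_blocks (H : Subgroup (Perm W)) (hH : H ≤ G) (ht : Transitive H) :
    ¬ CyclesAreBlocks H := by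
  intro hc
  have loc : ∀ j : Fin 8, ∃ g ∈ H, ∃ a ∈ L, a 0 = j ∧ ∀ i, g (i, 0) = (a i, 0) := by
    intro j
    obtain ⟨g, hg, hg'⟩ := ht (0, 0) (j, 0)
    obtain ⟨a, ha, ha'⟩ := (hH hg).2.2 0
    refine ⟨g, hg, a, ha, by rw [← ha', hg'], fun i => Prod.ext (ha' i) ?_⟩
    have := ((hH hg).2.1 0 (i, 0) (0, 0)).2 rfl
    rw [hg'] at this
    simpa using this
  obtain ⟨g, hg, a, ha, ha0, ha'⟩ := loc 2
  obtain ⟨g', hg', b, hb, hb0, hb'⟩ := loc 4
  obtain ⟨x, u, v, h1, h2, h3, h4, h5, h6⟩ := L_bad a ha b hb ha0 hb0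
  have e1 : ∀ i, (g * g') (i, 0) = (a (b i), 0) := fun i => by rw [Perm.mul_apply, hb', ha']
  have e2 : ∀ i, (g' * g) (i, 0) = (b (a i), 0) := fun i => by rw [Perm.mul_apply, ha', hb']
  have mem : ∀ w, (w = x ∨ w = a (b x)) → (g * g').SameCycle (x, 0) (w, 0) := by
    rintro w (rfl | rfl)
    · exact Perm.SameCycle.refl _ _
    · exact ⟨1, by rw [zpow_one, e1]⟩
  rcases (hc _ (H.mul_mem hg hg') (x, 0)).2 _ (H.mul_mem hg' hg) with h | h
  · have h7 : (g' * g) (v, 0) ∈ {y | (g * g').SameCycle (x, 0) y} := by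
      rw [← h]; exact ⟨_, mem v h3, rfl⟩
    rw [e2] at h7
    rcases two_cycle (by rw [e1, e1, h1]) h7 with h8 | h8
    · exact h5 (congrArg Prod.fst h8)
    · rw [e1] at h8
      exact h6 (congrArg Prod.fst h8)
  · exact Set.disjoint_left.1 h ⟨_, mem u h2, e2 u⟩ (mem _ h4)

theorem result : ∃ (Ω : Type) (_ : Infinite Ω) (G S : Subgroup (Perm Ω)),
    Finitary G ∧ Transitive G ∧ IsSylowIn 2 S G ∧ Transitive S ∧
      ∀ H : Subgroup (Perm Ω), H ≤ S → Transitive H → ¬ CyclesAreBlocks H :=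
  ⟨W, inferInstance, G, G, G_fin, G_trans,
    ⟨le_rfl, G_pgroup, fun _ h1 h2 _ => le_antisymm h2 h1⟩, G_trans, not_blocks⟩

end Pool.Agent.Results.MP_f6f917_al.Counter
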